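import Pool.Agent.Helper14K9.HC.Bor2
import Pool.Agent.Helper14K9.HC.Wd
import Pool.Agent.Helper14K9.HC.Asg
import Pool.Agent.Helper12K9.HC.Arb
import Pool.Agent.Helper44K9.HC.Bor

/-!
# MP_db9079_lc: if all definable subsets of F_p((t)) are Borel then it is uniformly locally finite

Write `K` for the field `F_p((t))`, with the valuation or with any other unary predicate `P`.
If every subset of `K` which is definable in `(K, P)` with parameters is a Borel set then `(K, P)` is
`LFTame`: the sets of the locally finite values of the definable relations are uniformly finite,
so there is no infinite definable discrete set, etc. (see the starting file `LocallyFiniteValues`).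
So every description of the definable sets of `(K, P)` by Borel sets, in whatever language, excludes
them all.

Proof: suppose that `(K, P)` is not `LFTame`. By the methods of `ProjectiveSets` the numbers, all
relations between numbers, the function `n ↦ t ^ n` and the coding of sequences by elements of `K` are
definable. So the analytic subsets of `K`, the sets of all `x` for which there is a sequence `y` of
numbers such that all pairs (first `n` numbers of `y`, coefficients of `t ^ i` in `x`, `- n ≤ i < n`) are
in a set `T`, are uniformly definable with a parameter for `T`, and Borel sets are analytic.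
Hence the set of the `x` which are not in the analytic set with the parameter `x` is definable,
and it is not analytic.
-/

set_option autoImplicit false

namespace Pool.Agent.Results.MP_db9079_lc.BorelDefinableSets

open Pool.Agent.Y924.EL
open Pool.Agent.Helper14K9.PJ
open Pool.Agent.Helper14K9.HC
open Pool.Agent.Results.MP_db9079_lc.UniformFiniteness
open Pool.Agent.Results.MP_db9079_lc.LocallyFiniteValues

theorem unb_of_not {p : ℕ} [Fact p.Prime] (P : Set (LaurentSeries (ZMod p)))
    (h : ¬ LFTame p P) : Unb P := by
  by_contra hU
  unfold Unb at hU
  push Not at hU
  exact h (lftame_of_tame P (tame_of_uniform p P hU))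

theorem result (p : ℕ) [Fact p.Prime] (P : Set (LaurentSeries (ZMod p)))
    -- all definable subsets of `K` are Borel sets (the `σ`-algebra generated by the balls)
    (h : ∀ (φ : Fm) (v : ℕ → LaurentSeries (ZMod p)), BorelK p (Dfn p P φ v)) :
    LFTame p P := by
  by_contra hT
  obtain ⟨ρ, hρ⟩ := wd_of_unb p P (unb_of_not P hT)
  obtain ⟨D, hD1, hD2⟩ := diagB Pool.Agent.Helper12K9.HC.arb asg Pool.Agent.Helper44K9.HC.bor hρ
  obtain ⟨φ, v, hφ⟩ := dfn_of_rc hD1
  refine hD2 ?_
  rw [← hφ]
  exact h φ v

end Pool.Agent.Results.MP_db9079_lc.BorelDefinableSets
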