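import Pool.Agent.Helper14K9.HC.Sat
import Pool.Agent.Helper14K9.HC.Wd
import Pool.Agent.Helper14K9.HC.Asg
import Pool.Agent.Helper12K9.HC.Arb

/-!
# MP_db9079_lc: if the quantifier hierarchy of F_p((t)) collapses then it is uniformly locally finite

Write `K` for the field `F_p((t))`, with the valuation or with any other unary predicate `P`.
Suppose that for some `n` every definable subset of `K` is definable by a `Σ_n`-formula, with
parameters (for example, `(K, P)` is model complete, `n = 1`). Then `(K, P)` is `LFTame`: the
sets of the locally finite values of the definable relations are uniformly finite, so there is no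
infinite definable discrete set, etc. (see the starting file `LocallyFiniteValues`).

Proof: suppose that `(K, P)` is not `LFTame`. By the methods of `ProjectiveSets` the numbers, all
relations between numbers, and the function `n ↦ t ^ n` are definable; elements of `K` code all
sequences of elements of `K`, so all assignments of values to the variables.  The truth of
quantifier-free formulas of arbitrary length is definable: it is a function of the set of the true
atomic formulas, which is coded by an element of `K`, and the truth of formulas under a given set of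
true atomic formulas is a relation between numbers. The truth of `Σ_n`-formulas of arbitrary length is
definable by induction on `n`, because a block of quantifiers is one quantifier over assignments.
Then the set of the codes `x` of pairs (a `Σ_n`-formula `ψ`, an assignment `w`) such that `x` is not in
the set defined by `ψ` with the parameters `w` is definable, but not by a `Σ_n`-formula.
-/

set_option autoImplicit false

namespace Pool.Agent.Results.MP_db9079_lc.HierarchyCollapse

open Pool.Agent.Y924.EL
open Pool.Agent.Helper14K9.PJ
open Pool.Agent.Helper14K9.HC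
open Pool.Agent.Results.MP_db9079_lc.UniformFiniteness
open Pool.Agent.Results.MP_db9079_lc.LocallyFiniteValues

theorem unb_of_not {p : ℕ} [Fact p.Prime] (P : Set (LaurentSeries (ZMod p)))
    (h : ¬ LFTame p P) : Unb P := by
  by_contra hU
  unfold Unb at hU
  push Not at hU
  exact h (lftame_of_tame P (tame_of_uniform p P hU))

theorem result (p : ℕ) [Fact p.Prime] (P : Set (LaurentSeries (ZMod p))) :
    -- if the hierarchy collapses then `(K, P)` is tame
    ((∃ n : ℕ, ∀ (φ : Fm) (v : ℕ → LaurentSeries (ZMod p)), ∃ (ψ : Fm)
      (w : ℕ → LaurentSeries (ZMod p)), Sg n ψ ∧ Dfn p P ψ w = Dfn p P φ v) → LFTame p P) ∧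
    -- in other words: if `(K, P)` is not tame then for each `n` there is a definable subset of `K`
    -- which is not definable by a `Σ_n`-formula, with any parameters
    (¬ LFTame p P → ∀ n : ℕ, ∃ (φ : Fm) (v : ℕ → LaurentSeries (ZMod p)),
      ∀ (ψ : Fm) (w : ℕ → LaurentSeries (ZMod p)), Sg n ψ → Dfn p P ψ w ≠ Dfn p P φ v) := by
  have key : ¬ LFTame p P → ∀ n : ℕ, ∃ (φ : Fm) (v : ℕ → LaurentSeries (ZMod p)),
      ∀ (ψ : Fm) (w : ℕ → LaurentSeries (ZMod p)), Sg n ψ → Dfn p P ψ w ≠ Dfn p P φ v := by
    intro h n
    obtain ⟨ρ, hρ⟩ := wd_of_unb p P (unb_of_not P h)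
    obtain ⟨D, hD1, hD2⟩ := diag Pool.Agent.Helper12K9.HC.arb asg hρ n
    obtain ⟨φ, v, hφ⟩ := dfn_of_rc hD1
    refine ⟨φ, v, fun ψ w hψ => ?_⟩
    rw [hφ]
    exact hD2 ψ w hψ
  refine ⟨?_, key⟩
  rintro ⟨n, hn⟩
  by_contra h
  obtain ⟨φ, v, h1⟩ := key h n
  obtain ⟨ψ, w, h2, h3⟩ := hn φ v
  exact h1 ψ w h2 h3

end Pool.Agent.Results.MP_db9079_lc.HierarchyCollapse
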