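import Pool.Agent.Helper14K9.PJ.All

/-!
# MP_db9079_lc: F_p((t)) is uniformly locally finite, or it defines all projective sets

Write `K` for the field `F_p((t))`, with the valuation or with any other unary predicate `P`.
The starting files show: if the theory of `(K, P)` is decidable then the definable
relations have uniformly finitely many locally finite values (`LFTame`).  Here we show that `LFTame`
is the complement of the wildest possible behaviour: if `(K, P)` is not `LFTame`, then ALL projective
subsets of all `K^n` (so all closed sets, all Borel sets, all countable sets) are definable in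
`(K, P)` with parameters.

The set of the `y` with `(c y)_0 = 0` for all `c` with `(c a)_0 = 0` for all `a` in a finite set `A` is a
finite group `G`, the span of `A` over `F_p`.  Sums over finite definable sets are definable, because
`y = ∑ f a` iff `(c y)_0 = ∑ (c f a)_0` for all `c`, where the right side depends on numbers of
elements of finite definable sets modulo `p`.  As `∑ 1 / (y - h)`, `h` in `G`, is a constant divided by
`∏ (y - h)`, the function `x ↦ x ^ |G|` is definable, uniformly in `A`.  So if there are definable
finite sets `A` of unbounded size then the infinite discrete set of the `t ^ |G|` is definable, and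
by `SecondOrderArithmetic` there is a definable sequence `e_0, e_1, ...` with its order. For the spans
`G_n` of `s - e_0, ..., s - e_(n-1)` we get all functions `x ↦ x ^ (p ^ n)`, uniformly in `n`.  Now
`t y_0 ^ (p ^ n) + t ^ p y_1 ^ (p ^ n) + ... + t ^ (p ^ (n - 1)) y_(n - 1) ^ (p ^ n)` is a code of the
finite sequence `y_0, ..., y_(n-1)`, which can be decoded by a formula.  So the function
`n ↦ t ^ n` is definable by recursion, and with it all sequences in `K`, and all closed sets.
-/

set_option autoImplicit false

namespace Pool.Agent.Results.MP_db9079_lc.ProjectiveSets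

open Pool.Agent.Y924.EL
open Pool.Agent.Helper14K9.PJ
open Pool.Agent.Results.MP_db9079_lc.UniformFiniteness
open Pool.Agent.Results.MP_db9079_lc.LocallyFiniteValues
open Function

variable (p : ℕ) [Fact p.Prime]

/-- all projective subsets of all `K^n` are definable, with parameters, in the field `K = F_p((t))`
with the unary predicate `P` -/
def AllProj (P : Set (LaurentSeries (ZMod p))) : Prop :=
  ∀ (n : ℕ) (X : Set (Fin n → LaurentSeries (ZMod p))), Proj p n X →
    ∃ (φ : Fm) (w : ℕ → LaurentSeries (ZMod p)), DSet p P φ n w = X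

/-- the powers `t ^ n`, `n` in `ℤ` -/
def Powers : Set (LaurentSeries (ZMod p)) := {x | ∃ n : ℤ, x = HahnSeries.single n (1 : ZMod p)}

/-- the finite ones among the sets defined by `φ` have an unbounded number of elements -/
def Unbounded (P : Set (LaurentSeries (ZMod p))) : Prop :=
  ∃ φ : Fm, ∀ N : ℕ, ∃ v : ℕ → LaurentSeries (ZMod p),
    (Dfn p P φ v).Finite ∧ N < (Dfn p P φ v).ncard

variable {p}

theorem dset_dfn (P : Set (LaurentSeries (ZMod p))) (φ : Fm) (w : ℕ → LaurentSeries (ZMod p)) :
    Dfn p P φ w = {x | (fun _ : Fin 1 => x) ∈ DSet p P φ 1 w} := by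
  ext x
  exact (dset_one P φ w x).symm

/-- `t ^ ℤ ∪ {0}` is closed -/
theorem closed_powers : ClosedN {x : Fin 1 → LaurentSeries (ZMod p) | x 0 ∈ Powers p ∨ x 0 = 0} := by
  intro x hx
  rw [Set.mem_ofPred_eq, not_or] at hx
  obtain ⟨h1, h2⟩ := hx
  -- a coefficient which is different from the one of the power with the same order
  have h3 : x 0 ≠ HahnSeries.single (x 0).order (1 : ZMod p) := fun h => h1 ⟨_, h⟩
  obtain ⟨m, hm⟩ : ∃ m, (x 0).coeff m ≠ (HahnSeries.single (x 0).order (1 : ZMod p)).coeff m := by
    by_contra hcon
    push Not at hcon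
    exact h3 (HahnSeries.ext (funext hcon))
  refine ⟨max m (x 0).order + 1, fun y hy hV => ?_⟩
  have hV0 := hV 0
  have hc : ∀ k, k ≤ max m (x 0).order → (y 0).coeff k = (x 0).coeff k := by
    intro k hk
    have := hV0 k (by omega)
    rw [HahnSeries.coeff_sub, sub_eq_zero] at this
    exact this
  have ho : (y 0).coeff (x 0).order ≠ 0 := by
    rw [hc _ (le_max_right _ _)]
    exact HahnSeries.coeff_order_eq_zero.not.2 h2
  rcases hy with ⟨n, hn⟩ | h0
  · rw [hn] at ho
    have hn' : n = (x 0).order := by
      by_contra hne
      exact ho (HahnSeries.coeff_single_of_ne (Ne.symm hne))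
    apply hm
    rw [← hc m (le_max_left _ _), hn, hn']
  · rw [h0] at ho
    exact ho rfl

theorem closed_zero : ClosedN {x : Fin 1 → LaurentSeries (ZMod p) | x 0 = 0} := by
  intro x hx
  rw [Set.mem_ofPred_eq] at hx
  refine ⟨(x 0).order + 1, fun y hy hV => ?_⟩
  have h1 := hV 0 (x 0).order (by omega)
  rw [HahnSeries.coeff_sub, hy, HahnSeries.coeff_zero, zero_sub, neg_eq_zero] at h1
  exact HahnSeries.coeff_order_eq_zero.not.2 hx h1

theorem single_ne' (n : ℤ) : (HahnSeries.single n (1 : ZMod p) : LaurentSeries (ZMod p)) ≠ 0 :=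
  Pool.Agent.R794.FP.single_ne n

theorem powers_definable (P : Set (LaurentSeries (ZMod p))) (h : AllProj p P) :
    ∃ (φ : Fm) (w : ℕ → LaurentSeries (ZMod p)), Dfn p P φ w = Powers p := by
  obtain ⟨φ, w, hw⟩ := h 1 _ (Proj.inter _ _ (Proj.closed _ closed_powers)
    (Proj.compl _ (Proj.closed _ closed_zero)))
  refine ⟨φ, w, ?_⟩
  rw [dset_dfn, hw]
  ext x
  simp only [Set.mem_inter_iff, Set.mem_ofPred_eq, Set.mem_compl_iff]
  constructor
  · rintro ⟨h1 | h1, h2⟩
    · exact h1
    · exact absurd h1 h2
  · rintro ⟨n, rfl⟩
    exact ⟨Or.inl ⟨n, rfl⟩, single_ne' n⟩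

theorem discr_powersZ : Discr p (Powers p) := by
  rintro x ⟨n, rfl⟩
  refine ⟨HahnSeries.single (n + 1) (1 : ZMod p), single_ne' _, ?_⟩
  rintro y ⟨m, rfl⟩ hz
  have h1 : (fun _ : Fin 1 => (HahnSeries.single m (1 : ZMod p) : LaurentSeries (ZMod p))) =
      fun _ => HahnSeries.single m (1 : ZMod p) := rfl
  have h2 := (near_iff (n := 1) (HahnSeries.single (n + 1) (1 : ZMod p))
    (fun _ => HahnSeries.single n (1 : ZMod p)) (fun _ => HahnSeries.single m (1 : ZMod p))).1
    fun _ => hz
  rw [Pool.Agent.R794.FP.near_single] at h2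
  have h3 := h2 0 n (lt_add_one n)
  by_contra hne
  have hmn : n ≠ m := by
    rintro rfl
    exact hne rfl
  rw [HahnSeries.coeff_single_same, HahnSeries.coeff_single_of_ne hmn] at h3
  exact one_ne_zero h3

theorem powers_infinite : (Powers p).Infinite := by
  have h : Injective fun n : ℕ => (HahnSeries.single (n : ℤ) (1 : ZMod p) :
      LaurentSeries (ZMod p)) := by
    intro a b hab
    by_contra hne
    have h1 := congrArg (fun z : LaurentSeries (ZMod p) => z.coeff (a : ℤ)) hab
    simp only at h1
    rw [HahnSeries.coeff_single_same, HahnSeries.coeff_single_of_ne (by exact_mod_cast hne)] at h1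
    exact one_ne_zero h1
  exact Set.infinite_of_injective_forall_mem h fun n => ⟨n, rfl⟩

theorem unbounded_of_not (P : Set (LaurentSeries (ZMod p))) (h : ¬ LFTame p P) :
    Unbounded p P := by
  by_contra hU
  unfold Unbounded at hU
  push Not at hU
  exact h (lftame_of_tame P (tame_of_uniform p P hU))

theorem not_lftame_of (P : Set (LaurentSeries (ZMod p))) (φ : Fm) (n m : ℕ)
    (v : ℕ → LaurentSeries (ZMod p)) (hv : (LFV p (DRel p P φ n m v)).Infinite) :
    ¬ LFTame p P := by
  intro h
  obtain ⟨N, hN⟩ := h φ n m
  exact hv (hN v).1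

theorem allProj_of_unbounded (P : Set (LaurentSeries (ZMod p))) (h : Unbounded p P) :
    AllProj p P := (wild_all p P h).2

theorem lfv_of_allProj (P : Set (LaurentSeries (ZMod p))) (h : AllProj p P) :
    ∃ (φ : Fm) (v : ℕ → LaurentSeries (ZMod p)), (LFV p (DRel p P φ 1 1 v)).Infinite := by
  obtain ⟨φ, w, hw⟩ := powers_definable P h
  refine ⟨_, _, lfv_of_scattered P φ w ?_ ?_⟩
  · rw [hw]; exact powers_infinite
  · rw [hw]; exact scattered_of_discr p _ discr_powersZ

theorem allProj_of_lfv {n m : ℕ} (P : Set (LaurentSeries (ZMod p))) (φ : Fm)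
    (v : ℕ → LaurentSeries (ZMod p)) (hv : (LFV p (DRel p P φ n m v)).Infinite) :
    AllProj p P :=
  allProj_of_unbounded P (unbounded_of_not P (not_lftame_of P φ n m v hv))

theorem allProj_codes {n m : ℕ}
    (R : (Fin n → LaurentSeries (ZMod p)) → (Fin m → LaurentSeries (ZMod p)) → Prop)
    (h : (LFV p R).Infinite) : AllProj p (Codes p R) :=
  allProj_of_unbounded _ (unbounded_of_not _ fun hT => not_lftame R h hT)

theorem result (p : ℕ) [Fact p.Prime] :
    -- the dichotomy, for the field with any unary predicate (for `P = ValRing p`, the valued field)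
    (∀ P : Set (LaurentSeries (ZMod p)), AllProj p P ↔ ¬ LFTame p P) ∧
    -- equivalent forms of the wild case
    (∀ P : Set (LaurentSeries (ZMod p)), List.TFAE [
      AllProj p P,
      -- the set of the powers of `t` is definable with parameters
      ∃ (φ : Fm) (w : ℕ → LaurentSeries (ZMod p)), Dfn p P φ w = Powers p,
      -- an infinite discrete set is definable with parameters
      ∃ (φ : Fm) (w : ℕ → LaurentSeries (ZMod p)), (Dfn p P φ w).Infinite ∧
        Discr p (Dfn p P φ w),
      -- an infinite scattered set is definable with parameters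
      ∃ (φ : Fm) (w : ℕ → LaurentSeries (ZMod p)), (Dfn p P φ w).Infinite ∧
        Scattered p (Dfn p P φ w),
      -- a definable relation has infinitely many locally finite values
      ∃ (φ : Fm) (n m : ℕ) (v : ℕ → LaurentSeries (ZMod p)),
        (LFV p (DRel p P φ n m v)).Infinite,
      -- the finite sets defined by some formula have an unbounded number of elements
      Unbounded p P]) ∧
    -- the expansions of the field by an infinite scattered set, for example by an infinite discrete
    -- set or by an infinite countable closed set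
    (∀ P : Set (LaurentSeries (ZMod p)), P.Infinite →
      (Scattered p P ∨ Discr p P ∨ (P.Countable ∧ ClosedSet p P)) → AllProj p P) ∧
    -- the expansions by a relation with infinitely many locally finite values
    ∀ (n m : ℕ)
      (R : (Fin n → LaurentSeries (ZMod p)) → (Fin m → LaurentSeries (ZMod p)) → Prop),
      (LFV p R).Infinite → AllProj p (Codes p R) := by
  refine ⟨fun P => ⟨fun h hT => ?_, fun h => allProj_of_unbounded P (unbounded_of_not P h)⟩,
    fun P => ?_, fun P hP hd => ?_, fun n m R h => allProj_codes R h⟩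
  · obtain ⟨φ, v, hv⟩ := lfv_of_allProj P h
    exact not_lftame_of P φ 1 1 v hv hT
  · tfae_have 1 → 2 := powers_definable P
    tfae_have 2 → 3 := by
      rintro ⟨φ, w, hw⟩
      exact ⟨φ, w, by rw [hw]; exact powers_infinite, by rw [hw]; exact discr_powersZ⟩
    tfae_have 3 → 4 := by
      rintro ⟨φ, w, h1, h2⟩
      exact ⟨φ, w, h1, scattered_of_discr p _ h2⟩
    tfae_have 4 → 5 := by
      rintro ⟨φ, w, h1, h2⟩
      exact ⟨_, 1, 1, _, lfv_of_scattered P φ w h1 h2⟩
    tfae_have 5 → 6 := by
      rintro ⟨φ, n, m, v, hv⟩
      exact unbounded_of_not P (not_lftame_of P φ n m v hv)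
    tfae_have 6 → 1 := allProj_of_unbounded P
    tfae_finish
  · have hS : Scattered p P := by
      rcases hd with h | h | h
      · exact h
      · exact scattered_of_discr p P h
      · exact scattered_of_closed p P h.1 h.2
    have h2 : Dfn p P (.val 0) 0 = P := by
      ext x
      simp [Dfn, Sat]
    refine allProj_of_lfv P _ _ (lfv_of_scattered P (.val 0) 0 ?_ ?_)
    · rw [h2]; exact hP
    · rw [h2]; exact hS

end Pool.Agent.Results.MP_db9079_lc.ProjectiveSets
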