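import Pool.Agent.Helper14K9.PJ.All

/-!
# MP_db9079_lc: the theory of F_p((t)) is tame or at least as complicated as second-order arithmetic

Write `K` for the field `F_p((t))`, with the valuation or with any other unary predicate `P`.  The
starting files of this problem show that true FIRST-ORDER arithmetic is reducible to the theory of
`(K, P)` if it does not have uniform finiteness. Here we show the same for true SECOND-ORDER
arithmetic, with quantifiers over all sets of natural numbers.

First step: if a definable relation has infinitely many locally finite values.  Let `F_r` be the finite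
set of the values of the relation at the points in `r⁻¹ O` which have finitely many values in the
ball `x + r O`, and let `H_r` be the `F_p`-span of the elements of `F_r` and of their inverses.  It is
finite, and it is definable: it is the set of the `y` with `(c y)_0 = 0` for all `c` which satisfy
`(c a)_0 = (c a⁻¹)_0 = 0` for all `a` in `F_r`.  The union of the groups `H_r` is not discrete.
So there is an element `s` (like a Liouville number) such that the `g` in the `H_r` whose distance
to `s` is smaller than all distances in `H_r` form an infinite set `Q`, on which `v (s - g)` is
injective and has the order type of the natural numbers.  For every `A ⊆ ℕ` there is a `c` such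
that the coefficient of `t ^ 0` in `c / (s - g)` is different from `0` iff the number of `g` in `Q` is in
`A`.  So `K` can quantify over all sets of natural numbers; addition and multiplication
are defined by the numbers of elements of finite sets.

Second step: if uniform finiteness fails then there is such a relation. If `A` is a finite
set then the `y` with `(c y)_0 = 0` for all `c` with `(c a)_0 = 0` for all `a` in `A` form a finite group
`G`, the span of `A`. Sums over definable finite sets are definable by the duality `(c y)_0`, since the
numbers of elements modulo `p` are definable. As `∑ 1 / (y - h)`, `h` in `G`, is a constant divided by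
`∏ (y - h)`, the function `x ↦ x ^ |G|` is definable, uniformly in `A`. So the set of all `t ^ |G|` is
definable; it is discrete, and it is infinite if the finite sets `A` have unbounded size.
-/

set_option autoImplicit false

namespace Pool.Agent.Results.MP_db9079_lc.SecondOrderArithmetic

open Pool.Agent.Y924.EL
open Pool.Agent.Helper14K9.SO
open Pool.Agent.Helper14K9.PJ
open Pool.Agent.Results.MP_db9079_lc.UniformFiniteness
open Pool.Agent.Results.MP_db9079_lc.LocallyFiniteValues
open Function

variable (p : ℕ) [Fact p.Prime]

/-- true second-order arithmetic (the set variables range over all sets of natural numbers) is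
many-one reducible to the theory of `F_p((t))` with the unary predicate `P`, by a primitive
recursive function -/
def Arith2 (P : Set (LaurentSeries (ZMod p))) : Prop :=
  ∃ F : ℕ → ℕ, Primrec F ∧ ∀ ψ : SF, ψ.fvN = ∅ → ψ.fvS = ∅ →
    ((∀ (n : ℕ → ℕ) (A : ℕ → Set ℕ), Tr ψ n A) ↔ InTh p P (F ψ.code))

variable {p}

theorem dichotomy2 (P : Set (LaurentSeries (ZMod p))) : LFTame p P ∨ Arith2 p P := by
  by_cases h : Tame p P
  · exact Or.inl (lftame_of_tame P h)
  · right
    have hU : Unb P := by
      by_contra hU
      unfold Unb at hU
      push Not at hU
      exact h (tame_of_uniform p P hU)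
    obtain ⟨ψ, w, hw⟩ := (wild_all p P hU).1
    exact reduce_all p P ψ w hw

theorem not_lftame_of (P : Set (LaurentSeries (ZMod p))) (φ : Fm) (n m : ℕ)
    (v : ℕ → LaurentSeries (ZMod p)) (hv : (LFV p (DRel p P φ n m v)).Infinite) :
    ¬ LFTame p P := by
  intro h
  obtain ⟨N, hN⟩ := h φ n m
  exact hv (hN v).1

/-- a relation which is coded by the predicate -/
theorem codes2 {n m : ℕ}
    (R : (Fin n → LaurentSeries (ZMod p)) → (Fin m → LaurentSeries (ZMod p)) → Prop)
    (h : (LFV p R).Infinite) : Arith2 p (Codes p R) :=
  (dichotomy2 (Codes p R)).resolve_left fun hT => not_lftame R h hT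

theorem result (p : ℕ) [Fact p.Prime] :
    -- the field with any unary predicate (for `P = ValRing p`, the valued field): true second-order
    -- arithmetic is reducible to the theory, or the sets of the locally finite values of definable
    -- relations are uniformly finite
    (∀ P : Set (LaurentSeries (ZMod p)), LFTame p P ∨ Arith2 p P) ∧
    -- the field with a predicate for an infinite scattered set, for example for an infinite
    -- discrete set or for an infinite countable closed set
    (∀ P : Set (LaurentSeries (ZMod p)), P.Infinite →
      (Scattered p P ∨ Discr p P ∨ (P.Countable ∧ ClosedSet p P)) → Arith2 p P) ∧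
    -- the expansions by relations with infinitely many locally finite values
    (∀ (n m : ℕ)
      (R : (Fin n → LaurentSeries (ZMod p)) → (Fin m → LaurentSeries (ZMod p)) → Prop),
      (LFV p R).Infinite → Arith2 p (Codes p R)) ∧
    -- for example the expansion by `x ↦ g (v (x))`, for any function `g` from the value group to
    -- `K` with infinite image
    ∀ g : ℤ → LaurentSeries (ZMod p), (Set.range g).Infinite →
      Arith2 p (Codes p fun (x y : Fin 1 → LaurentSeries (ZMod p)) =>
        x 0 ≠ 0 ∧ y 0 = g (x 0).order) := by
  refine ⟨fun P => dichotomy2 P, fun P hP hd => ?_, fun n m R h => codes2 R h, fun g hg => ?_⟩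
  · have hS : Scattered p P := by
      rcases hd with h | h | h
      · exact h
      · exact scattered_of_discr p P h
      · exact scattered_of_closed p P h.1 h.2
    have h2 : Dfn p P (.val 0) 0 = P := by
      ext x
      simp [Dfn, Sat]
    refine (dichotomy2 P).resolve_left (not_lftame_of P _ _ _ _
      (lfv_of_scattered P (.val 0) 0 ?_ ?_))
    · rw [h2]; exact hP
    · rw [h2]; exact hS
  · refine codes2 _ fun hfin => ?_
    have h1 : (fun _ : Fin 1 => ·) '' Set.range g ⊆ LFV p
        (fun (x y : Fin 1 → LaurentSeries (ZMod p)) => x 0 ≠ 0 ∧ y 0 = g (x 0).order) := by
      rintro _ ⟨_, ⟨k, rfl⟩, rfl⟩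
      obtain ⟨b, hb, h2⟩ := order_near (tk p k) (tk_ne k)
      refine ⟨tk p k, ⟨tk_ne k, by rw [tk_order]⟩, b, hb,
        (Set.finite_singleton (fun _ : Fin 1 => g k)).subset ?_⟩
      rintro y' ⟨x', ⟨h3, h4⟩, h5⟩
      rw [Set.mem_singleton_iff]
      funext i
      rw [Subsingleton.elim i 0, h4, (h2 x' h5).2, tk_order]
    have h2 := hfin.subset h1
    refine hg (Set.Finite.of_finite_image h2 ?_)
    intro a _ b _ hab
    exact congrFun hab 0

end Pool.Agent.Results.MP_db9079_lc.SecondOrderArithmetic
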